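import Mathlib

/-!
# The expansion of `c ^ m + (-b) ^ m` in `c - b` and `b c`
-/

set_option autoImplicit false

open Finset

namespace Pool.Agent.TH285.NC

/-- `(a + b) ^ m + (-b) ^ m` is a combination of the `a ^ (m - 2 j) (b (a + b)) ^ j`, `2 j ≤ m`,
with positive integral coefficients. -/
theorem coef (m : ℕ) : ∃ e : ℕ → ℕ, (∀ j, 2 * j ≤ m → 0 < e j) ∧ (∀ j, m < 2 * j → e j = 0) ∧
    ∀ a b : ℤ, (a + b) ^ m + (-b) ^ m =
      ∑ j ∈ range (m + 1), (e j : ℤ) * a ^ (m - 2 * j) * (b * (a + b)) ^ j := by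
  induction m using Nat.twoStepInduction with
  | zero =>
    refine ⟨fun j => if j = 0 then 2 else 0, ?_, ?_, ?_⟩
    · intro j hj
      have : j = 0 := by omega
      simp [this]
    · intro j hj
      have : j ≠ 0 := by omega
      simp [this]
    · intro a b
      simp
  | one =>
    refine ⟨fun j => if j = 0 then 1 else 0, ?_, ?_, ?_⟩
    · intro j hj
      have : j = 0 := by omega
      simp [this]
    · intro j hj
      have : j ≠ 0 := by omega
      simp [this]
    · intro a b
      simp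
  | more m ih0 ih1 =>
    obtain ⟨e0, h01, h02, h03⟩ := ih0
    obtain ⟨e1, h11, h12, h13⟩ := ih1
    refine ⟨fun j => Nat.casesOn j (e1 0) (fun i => e1 (i + 1) + e0 i), ?_, ?_, ?_⟩
    · intro j hj
      cases j with
      | zero => exact h11 0 (by omega)
      | succ j =>
        have := h01 j (by omega)
        simp only
        omega
    · intro j hj
      cases j with
      | zero => omega
      | succ j =>
        simp only
        rw [h12 (j + 1) (by omega), h02 j (by omega)]
    · intro a b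
      have key : (a + b) ^ (m + 2) + (-b) ^ (m + 2) = a * ((a + b) ^ (m + 1) + (-b) ^ (m + 1)) +
          (b * (a + b)) * ((a + b) ^ m + (-b) ^ m) := by ring
      set p : ℤ := b * (a + b) with hp
      have hb2 : ∑ j ∈ range (m + 2 + 1), ((Nat.casesOn j (e1 0) (fun i => e1 (i + 1) + e0 i) : ℕ) : ℤ) *
          a ^ (m + 2 - 2 * j) * p ^ j =
          (∑ j ∈ range (m + 2), ((e1 (j + 1) + e0 j : ℕ) : ℤ) * a ^ (m + 2 - 2 * (j + 1)) *
            p ^ (j + 1)) + (e1 0 : ℤ) * a ^ (m + 2) := by
        rw [Finset.sum_range_succ']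
        simp
      have hb1 : ∑ j ∈ range (m + 1 + 1), (e1 j : ℤ) * a ^ (m + 1 - 2 * j) * p ^ j =
          (∑ j ∈ range (m + 1), (e1 (j + 1) : ℤ) * a ^ (m + 1 - 2 * (j + 1)) * p ^ (j + 1)) +
            (e1 0 : ℤ) * a ^ (m + 1) := by
        rw [Finset.sum_range_succ']
        simp
      rw [key, h13, h03, ← hp, hb1, hb2, Finset.sum_range_succ (n := m + 1)]
      have hlast : ((e1 (m + 1 + 1) + e0 (m + 1) : ℕ) : ℤ) = 0 := by
        rw [h12 (m + 1 + 1) (by omega), h02 (m + 1) (by omega)]
        rfl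
      rw [hlast, zero_mul, zero_mul, add_zero, mul_add, Finset.mul_sum, Finset.mul_sum]
      have hterm : ∑ j ∈ range (m + 1), ((e1 (j + 1) + e0 j : ℕ) : ℤ) *
          a ^ (m + 2 - 2 * (j + 1)) * p ^ (j + 1) =
          ∑ j ∈ range (m + 1), a * ((e1 (j + 1) : ℤ) * a ^ (m + 1 - 2 * (j + 1)) * p ^ (j + 1)) +
          ∑ j ∈ range (m + 1), p * ((e0 j : ℤ) * a ^ (m - 2 * j) * p ^ j) := by
        rw [← Finset.sum_add_distrib]
        refine Finset.sum_congr rfl fun j _ => ?_
        have h1 : m + 2 - 2 * (j + 1) = m - 2 * j := by omega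
        rw [h1]
        push_cast
        rcases Nat.lt_or_ge (m + 1) (2 * (j + 1)) with h | h
        · rw [h12 (j + 1) h]
          push_cast
          ring
        · have h2 : m - 2 * j = (m + 1 - 2 * (j + 1)) + 1 := by omega
          rw [h2]
          ring
      rw [hterm]
      ring

/-- one positive entry and negative entries otherwise: no subsum vanishes -/
theorem no_subsum {n : ℕ} (x : Fin (n + 1) → ℤ)
    (hneg : ∀ i : Fin n, x i.succ < 0) (hsum : ∑ i, x i = 0) (I : Finset (Fin (n + 1)))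
    (hI : I.Nonempty) (hI' : I ≠ univ) : ∑ i ∈ I, x i ≠ 0 := by
  classical
  have hneg' : ∀ i : Fin (n + 1), i ≠ 0 → x i < 0 := by
    intro i hi
    obtain ⟨j, rfl⟩ := Fin.exists_succ_eq.mpr hi
    exact hneg j
  by_cases h : (0 : Fin (n + 1)) ∈ I
  · obtain ⟨i, hi⟩ : ∃ i, i ∉ I := by
      by_contra hcon
      push Not at hcon
      exact hI' (Finset.eq_univ_iff_forall.mpr hcon)
    have h1 : ∑ j ∈ I, x j + ∑ j ∈ Iᶜ, x j = 0 := by
      rw [Finset.sum_add_sum_compl]
      exact hsum
    have h2 : ∑ j ∈ Iᶜ, x j < 0 := by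
      refine Finset.sum_neg (fun j hj => hneg' j ?_) ⟨i, Finset.mem_compl.mpr hi⟩
      rintro rfl
      exact (Finset.mem_compl.mp hj) h
    omega
  · have h2 : ∑ j ∈ I, x j < 0 := by
      refine Finset.sum_neg (fun j hj => hneg' j ?_) hI
      rintro rfl
      exact h hj
    omega

end Pool.Agent.TH285.NC
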