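import Pool.Agent.TH285.NC.Coef
import Pool.Agent.H390R2.Triple

/-!
# Tuples from abc triples
-/

set_option autoImplicit false

open Finset

namespace Pool.Agent.TH285.NC

open Pool.Agent.H390R2

theorem tuple (k : ℕ) : ∃ E : ℕ, 0 < E ∧ ∀ a b c : ℕ, 0 < a → 0 < b → a + b = c →
    Nat.Coprime a b → ∃ x : Fin (k + 3) → ℤ, ∑ i, x i = 0 ∧ Finset.univ.gcd x = 1 ∧
      (∀ I : Finset (Fin (k + 3)), I.Nonempty → I ≠ Finset.univ → ∑ i ∈ I, x i ≠ 0) ∧
      (Finset.univ.sup fun i => (x i).natAbs) = c ^ (2 * k + 1) ∧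
      (∏ j, x j).natAbs.primeFactors.prod id ≤ E * rad (a * b * c) := by
  classical
  obtain ⟨e, he1, he2, he3⟩ := coef (2 * k + 1)
  set E : ℕ := ∏ j ∈ range (k + 1), e j with hE
  have hepos : ∀ j < k + 1, 0 < e j := fun j hj => he1 j (by omega)
  have hE0 : 0 < E := Finset.prod_pos fun j hj => hepos j (mem_range.mp hj)
  refine ⟨E, hE0, ?_⟩
  intro a b c ha hb habc hcop
  have hc : 0 < c := by omega
  have haZ : (0 : ℤ) < a := by exact_mod_cast ha
  have hbZ : (0 : ℤ) < b := by exact_mod_cast hb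
  have hcZ : (0 : ℤ) < c := by exact_mod_cast hc
  have habcZ : (a : ℤ) + b = c := by exact_mod_cast habc
  set N := 2 * k + 1 with hN
  set y : Fin (k + 1) → ℤ := fun j => -((e j : ℤ) * (a : ℤ) ^ (N - 2 * (j : ℕ)) *
    ((b : ℤ) * c) ^ (j : ℕ)) with hy
  set x : Fin (k + 3) → ℤ := Fin.cons ((c : ℤ) ^ N) (Fin.cons (-((b : ℤ) ^ N)) y) with hx
  have hx0 : x 0 = (c : ℤ) ^ N := rfl
  have hx1 : x (Fin.succ 0) = -((b : ℤ) ^ N) := rfl
  have hxs : ∀ j : Fin (k + 1), x j.succ.succ = y j := fun j => rfl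
  have hyneg : ∀ j : Fin (k + 1), y j < 0 := by
    intro j
    rw [hy]
    simp only
    have := hepos j j.2
    have h1 : (0 : ℤ) < e j := by exact_mod_cast this
    have : 0 < (e j : ℤ) * (a : ℤ) ^ (N - 2 * (j : ℕ)) * ((b : ℤ) * c) ^ (j : ℕ) := by positivity
    omega
  have hneg : ∀ i : Fin (k + 2), x i.succ < 0 := by
    intro i
    refine Fin.cases ?_ (fun j => ?_) i
    · rw [hx1]
      have : 0 < (b : ℤ) ^ N := by positivity
      omega
    · rw [hxs]
      exact hyneg j
  have hsumy : ∑ j, y j = -((c : ℤ) ^ N + (-(b : ℤ)) ^ N) := by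
    have h1 := he3 a b
    rw [habcZ] at h1
    rw [h1]
    have h2 : ∑ j ∈ range (N + 1), (e j : ℤ) * (a : ℤ) ^ (N - 2 * j) * ((b : ℤ) * c) ^ j =
        ∑ j ∈ range (k + 1), (e j : ℤ) * (a : ℤ) ^ (N - 2 * j) * ((b : ℤ) * c) ^ j := by
      symm
      refine Finset.sum_subset (fun j hj => ?_) (fun j _ hj => ?_)
      · rw [mem_range] at hj ⊢
        omega
      · have h3 : ¬ j < k + 1 := fun h => hj (mem_range.mpr h)
        rw [he2 j (by omega)]
        push_cast
        ring
    rw [h2, ← Finset.sum_neg_distrib, hy]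
    exact Fin.sum_univ_eq_sum_range
      (fun j => -((e j : ℤ) * (a : ℤ) ^ (N - 2 * j) * ((b : ℤ) * c) ^ j)) (k + 1)
  have hodd : (-(b : ℤ)) ^ N = -((b : ℤ) ^ N) := Odd.neg_pow ⟨k, by omega⟩ _
  have hsum : ∑ i, x i = 0 := by
    rw [Fin.sum_univ_succ, Fin.sum_univ_succ, hx0, hx1]
    simp only [hxs]
    rw [hsumy, hodd]
    ring
  have hgcd : Finset.univ.gcd x = 1 := by
    have h1 : Finset.univ.gcd x ∣ (c : ℤ) ^ N := by
      rw [← hx0]
      exact Finset.gcd_dvd (mem_univ _)
    have h2 : Finset.univ.gcd x ∣ (b : ℤ) ^ N := by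
      have := Finset.gcd_dvd (f := x) (mem_univ (Fin.succ 0))
      rw [hx1, dvd_neg] at this
      exact this
    have hcop' : IsCoprime ((c : ℤ) ^ N) ((b : ℤ) ^ N) := by
      refine IsCoprime.pow ?_
      rw [Nat.isCoprime_iff_coprime, ← habc]
      exact (Nat.coprime_add_self_left).mpr hcop
    have h3 : IsUnit (Finset.univ.gcd x) := hcop'.isUnit_of_dvd' h1 h2
    have h4 : normalize (Finset.univ.gcd x) = Finset.univ.gcd x := Finset.normalize_gcd
    rw [← h4]
    exact normalize_eq_one.mpr h3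
  have hns := no_subsum x hneg hsum
  have hsize : (Finset.univ.sup fun i => (x i).natAbs) = c ^ N := by
    refine le_antisymm (Finset.sup_le fun i _ => ?_) ?_
    · refine Fin.cases ?_ (fun j => ?_) i
      · rw [hx0, Int.natAbs_pow, Int.natAbs_natCast]
      · -- a negative entry is at most the positive one
        have h1 : x 0 + ∑ i : Fin (k + 2), x i.succ = 0 := by
          rw [← Fin.sum_univ_succ]; exact hsum
        have h2 : ∑ i : Fin (k + 2), x i.succ ≤ x j.succ := by
          rw [← Finset.add_sum_erase _ _ (mem_univ j)]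
          have : ∑ i ∈ univ.erase j, x (Fin.succ i) ≤ 0 :=
            Finset.sum_nonpos fun i _ => (hneg i).le
          linarith
        have h3 : -(x j.succ) ≤ (c : ℤ) ^ N := by
          rw [hx0] at h1
          linarith
        have h4 : (((x j.succ).natAbs : ℕ) : ℤ) = -(x j.succ) := by
          rw [Int.natCast_natAbs, abs_of_neg (hneg j)]
        have h5 : (((x j.succ).natAbs : ℕ) : ℤ) ≤ ((c ^ N : ℕ) : ℤ) := by
          rw [h4]; push_cast; exact h3
        exact_mod_cast h5
    · have h1 : (x 0).natAbs = c ^ N := by rw [hx0, Int.natAbs_pow, Int.natAbs_natCast]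
      rw [← h1]
      exact Finset.le_sup (f := fun i => (x i).natAbs) (mem_univ 0)
  refine ⟨x, hsum, hgcd, hns, hsize, ?_⟩
  -- the radical
  have hsub : (∏ j, x j).natAbs.primeFactors ⊆ E.primeFactors ∪ (a * b * c).primeFactors := by
    intro p hp
    have hpp := Nat.prime_of_mem_primeFactors hp
    have hpZ : Prime (p : ℤ) := Nat.prime_iff_prime_int.mp hpp
    have hpd : (p : ℤ) ∣ ∏ j, x j := Int.natCast_dvd.mpr (Nat.dvd_of_mem_primeFactors hp)
    have habc0 : a * b * c ≠ 0 := by positivity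
    have hpabc : p ∣ a ∨ p ∣ b ∨ p ∣ c → p ∈ (a * b * c).primeFactors := by
      intro h
      refine Nat.mem_primeFactors.mpr ⟨hpp, ?_, habc0⟩
      rcases h with h | h | h
      · exact Dvd.dvd.mul_right (Dvd.dvd.mul_right h _) _
      · exact Dvd.dvd.mul_right (Dvd.dvd.mul_left h _) _
      · exact Dvd.dvd.mul_left h _
    rw [Finset.mem_union]
    obtain ⟨i, _, hi⟩ := (Prime.dvd_finsetProd_iff hpZ _).mp hpd
    revert hi
    refine Fin.cases ?_ (fun i => ?_) i
    · intro hi
      rw [hx0] at hi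
      exact Or.inr (hpabc (Or.inr (Or.inr (by exact_mod_cast hpZ.dvd_of_dvd_pow hi))))
    · refine Fin.cases ?_ (fun j => ?_) i
      · intro hi
        rw [hx1, dvd_neg] at hi
        exact Or.inr (hpabc (Or.inr (Or.inl (by exact_mod_cast hpZ.dvd_of_dvd_pow hi))))
      · intro hi
        rw [hxs, hy] at hi
        simp only at hi
        rw [dvd_neg] at hi
        rcases hpZ.dvd_or_dvd hi with h | h
        · rcases hpZ.dvd_or_dvd h with h | h
          · left
            have h1 : p ∣ e j := by exact_mod_cast h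
            exact Nat.mem_primeFactors.mpr ⟨hpp,
              h1.trans (Finset.dvd_prod_of_mem e (mem_range.mpr j.2)), hE0.ne'⟩
          · exact Or.inr (hpabc (Or.inl (by exact_mod_cast hpZ.dvd_of_dvd_pow h)))
        · rcases hpZ.dvd_or_dvd (hpZ.dvd_of_dvd_pow h) with h | h
          · exact Or.inr (hpabc (Or.inr (Or.inl (by exact_mod_cast h))))
          · exact Or.inr (hpabc (Or.inr (Or.inr (by exact_mod_cast h))))
  have hpos : ∀ p ∈ E.primeFactors ∪ (a * b * c).primeFactors, 1 ≤ p := by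
    intro p hp
    rw [Finset.mem_union] at hp
    rcases hp with hp | hp
    · exact (Nat.prime_of_mem_primeFactors hp).one_le
    · exact (Nat.prime_of_mem_primeFactors hp).one_le
  calc (∏ j, x j).natAbs.primeFactors.prod id
      ≤ (E.primeFactors ∪ (a * b * c).primeFactors).prod id :=
        Finset.prod_le_prod_of_subset_of_one_le' hsub fun p hp _ => hpos p hp
    _ ≤ (E.primeFactors.prod id) * ((a * b * c).primeFactors.prod id) := by
        rw [← Finset.prod_union_inter]
        refine Nat.le_mul_of_pos_right _ (Finset.prod_pos fun p hp => ?_)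
        exact (Nat.prime_of_mem_primeFactors (Finset.mem_inter.mp hp).1).pos
    _ ≤ E * rad (a * b * c) := by
        refine Nat.mul_le_mul ?_ (le_of_eq rfl)
        exact Nat.le_of_dvd hE0 (Nat.prod_primeFactors_dvd E)

end Pool.Agent.TH285.NC
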